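import Pool.Agent.Lib_helper8.A1.Int
import Pool.Agent.Lib_helper59.A1.Stmts

/-!
# MP_859019_mp, project A1: INTStmt
-/

set_option autoImplicit false

open MeasureTheory Set Matrix

namespace Pool.Agent.Lib_helper8.A1

open Pool.Agent.RC Pool.Agent.A1 Pool.Agent.A1W

/-- INT -/
theorem int_stmt (hB : BNDStmt) : INTStmt := by
  intro ι κ _ _ _ _ R₁ D₁ R₂ D₂ h₁ h₂ α e₀ E h0 h0E
  obtain ⟨K, hK0, hK⟩ := hB ι κ R₁ D₁ R₂ D₂ h₁ h₂
  exact int_core hK0 (fun c hc e he => ⟨fun t ht => ((hK c hc e he).1 t ht).1.2,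
    (hK c hc e he).2.2⟩) α e₀ E h0 h0E

end Pool.Agent.Lib_helper8.A1
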