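import Pool.Agent.Lib_helper59.A1.Defs
import Pool.Agent.Lib_helper50.A1.Bd

/-!
# MP_859019_mp, project A1: block INT, measurability and integrability of the `w`-integrated
functions
-/

set_option autoImplicit false

open scoped BigOperators ComplexOrder Kronecker MatrixOrder
open MeasureTheory Set Matrix

namespace Pool.Agent.Lib_helper8.A1

open Pool.Agent.RC Pool.Agent.A1 Pool.Agent.A1W

variable {ι κ : Type} [Fintype ι] [DecidableEq ι] [Fintype κ] [DecidableEq κ]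

section general

/-- bounded measurable functions are interval integrable -/
theorem ii_of_bdd {f : ℝ → ℝ} {a b C : ℝ} (hab : a ≤ b) (hf : Measurable f)
    (hC : ∀ x ∈ Icc a b, |f x| ≤ C) : IntervalIntegrable f volume a b := by
  rw [intervalIntegrable_iff_integrableOn_Ioc_of_le hab]
  apply Measure.integrableOn_of_bounded (M := C) measure_Ioc_lt_top.ne hf.aestronglyMeasurable
  rw [ae_restrict_iff' measurableSet_Ioc]
  exact Filter.Eventually.of_forall fun x hx => by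
    rw [Real.norm_eq_abs]
    exact hC x (Ioc_subset_Icc_self hx)

/-- an interval integral with measurable parameter dependence is measurable -/
theorem measurable_ii {X : Type} [MeasurableSpace X] {F : X → ℝ → ℝ} {a b : ℝ} (hab : a ≤ b)
    (hF : Measurable (Function.uncurry F)) : Measurable fun x => ∫ y in a..b, F x y := by
  have h : StronglyMeasurable fun x => ∫ y in Ioc a b, F x y :=
    hF.stronglyMeasurable.integral_prod_right
  simp only [intervalIntegral.integral_of_le hab]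
  exact h.measurable

/-- an integral over `(0,∞)` with measurable parameter dependence is measurable -/
theorem measurable_Ioi {X : Type} [MeasurableSpace X] {F : X → ℝ → ℝ}
    (hF : Measurable (Function.uncurry F)) : Measurable fun x => ∫ y in Ioi (0 : ℝ), F x y := by
  have h : StronglyMeasurable fun x => ∫ y in Ioi (0 : ℝ), F x y :=
    hF.stronglyMeasurable.integral_prod_right
  exact h.measurable

/-- bound for an interval integral -/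
theorem abs_ii_le {f : ℝ → ℝ} {a b C : ℝ} (hab : a ≤ b) (hC : ∀ x ∈ Icc a b, |f x| ≤ C) :
    |∫ x in a..b, f x| ≤ C * (b - a) := by
  have h := intervalIntegral.norm_integral_le_of_norm_le_const (a := a) (b := b) (f := f) (C := C)
    (fun x hx => by
      rw [uIoc_of_le hab] at hx
      exact hC x (Ioc_subset_Icc_self hx))
  rwa [Real.norm_eq_abs, abs_of_nonneg (by linarith : 0 ≤ b - a)] at h

/-- a power of `e` is bounded on `[e₀, E]` -/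
theorem rpow_bdd (s : ℝ) {e₀ E : ℝ} (h0 : 0 < e₀) :
    ∃ C : ℝ, 0 ≤ C ∧ ∀ e ∈ Icc e₀ E, |e ^ s| ≤ C := by
  have hc : ContinuousOn (fun e : ℝ => e ^ s) (Icc e₀ E) := fun e he =>
    (Real.continuousAt_rpow_const e s (Or.inl (h0.trans_le he.1).ne')).continuousWithinAt
  obtain ⟨C, hC⟩ := isCompact_Icc.exists_bound_of_continuousOn hc
  exact ⟨max C 0, le_max_right _ _, fun e he =>
    (by simpa [Real.norm_eq_abs] using hC e he : |e ^ s| ≤ C).trans (le_max_left _ _)⟩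

end general

variable (R₁ D₁ : Matrix ι ι ℂ) (R₂ D₂ : Matrix κ κ ℂ)

/-- `uu` is measurable in all variables -/
theorem measurable_uu : Measurable fun z : (ℝ × ℝ × ℝ) × ℝ =>
    uu R₁ D₁ R₂ D₂ z.1.1 z.1.2.1 z.1.2.2 z.2 := by
  have h := measurable_trace_inv (X := (ℝ × ℝ × ℝ) × ℝ)
    (B := fun z => Dc D₁ R₂ D₂ z.1.1) (G := fun z => Zt R₁ D₁ R₂ D₂ z.1.1 z.1.2.1 z.1.2.2 z.2)
    ((continuous_Dc D₁ R₂ D₂).comp (f := fun z : (ℝ × ℝ × ℝ) × ℝ => z.1.1) (by fun_prop))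
    ((continuous_Z R₁ D₁ R₂ D₂).comp
      (f := fun z : (ℝ × ℝ × ℝ) × ℝ => (z.1.1, z.1.2.1, z.1.2.2, z.2)) (by fun_prop))
  exact Complex.measurable_re.comp h

/-- `vv` is measurable in all variables -/
theorem measurable_vv : Measurable fun z : (ℝ × ℝ) × ℝ =>
    vv R₁ D₁ R₂ D₂ z.1.1 z.1.2 z.2 := by
  have h := measurable_trace_inv (X := (ℝ × ℝ) × ℝ)
    (B := fun _ => D₁ ⊗ₖ R₂) (G := fun z => Zt R₁ D₁ R₂ D₂ z.1.1 z.1.2 0 z.2)
    continuous_const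
    ((continuous_Z R₁ D₁ R₂ D₂).comp
      (f := fun z : (ℝ × ℝ) × ℝ => (z.1.1, z.1.2, (0 : ℝ), z.2)) (by fun_prop))
  unfold vv tz
  exact ((measurable_const.div measurable_snd).neg).mul (Complex.measurable_im.comp h)

theorem measurable_pc : Measurable fun z : ℝ × ℝ × ℝ => pc R₁ D₁ R₂ D₂ z.1 z.2.1 z.2.2 :=
  (measurable_Ioi (F := fun (z : ℝ × ℝ × ℝ) w => uu R₁ D₁ R₂ D₂ z.1 z.2.1 z.2.2 w)
    (measurable_uu R₁ D₁ R₂ D₂)).const_mul _

theorem measurable_pa : Measurable fun z : ℝ × ℝ => pa R₁ D₁ R₂ D₂ z.1 z.2 :=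
  measurable_ii (F := fun (z : ℝ × ℝ) t => pc R₁ D₁ R₂ D₂ z.1 z.2 t) zero_le_one
    ((measurable_pc R₁ D₁ R₂ D₂).comp
      (f := fun z : (ℝ × ℝ) × ℝ => (z.1.1, z.1.2, z.2)) (by fun_prop))

theorem measurable_qc : Measurable fun z : ℝ × ℝ => qc R₁ D₁ R₂ D₂ z.1 z.2 :=
  (measurable_Ioi (F := fun (z : ℝ × ℝ) w => vv R₁ D₁ R₂ D₂ z.1 z.2 w)
    (measurable_vv R₁ D₁ R₂ D₂)).const_mul _

variable {R₁ D₁ R₂ D₂}

/-- the bounds which are used -/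
theorem bounds_of {K : ℝ} (hK0 : 0 ≤ K)
    (hK : ∀ c ∈ Icc (-1 : ℝ) 1, ∀ e : ℝ, 0 ≤ e →
      (∀ t ∈ Icc (0 : ℝ) 1, ∫ w in Ioi (0 : ℝ), |uu R₁ D₁ R₂ D₂ c e t w| ≤ K) ∧
      ∫ w in Ioi (0 : ℝ), |vv R₁ D₁ R₂ D₂ c e w| ≤ K / (1 + e)) :
    ∀ c ∈ Icc (-1 : ℝ) 1, ∀ e : ℝ, 0 ≤ e →
      (∀ t ∈ Icc (0 : ℝ) 1, |pc R₁ D₁ R₂ D₂ c e t| ≤ 2 / Real.pi * K) ∧
      |pa R₁ D₁ R₂ D₂ c e| ≤ 2 / Real.pi * K ∧ |qc R₁ D₁ R₂ D₂ c e| ≤ 2 / Real.pi * K := by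
  intro c hc e he
  have hpi : 0 ≤ 2 / Real.pi := by positivity
  have h1 : ∀ t ∈ Icc (0 : ℝ) 1, |pc R₁ D₁ R₂ D₂ c e t| ≤ 2 / Real.pi * K := by
    intro t ht
    unfold pc
    rw [abs_mul, abs_of_nonneg hpi]
    exact mul_le_mul_of_nonneg_left
      (abs_integral_le_integral_abs.trans ((hK c hc e he).1 t ht)) hpi
  refine ⟨h1, ?_, ?_⟩
  · have := abs_ii_le (f := fun t => pc R₁ D₁ R₂ D₂ c e t) zero_le_one h1
    simpa [pa] using this
  · unfold qc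
    rw [abs_mul, abs_of_nonneg hpi]
    refine mul_le_mul_of_nonneg_left
      (abs_integral_le_integral_abs.trans ((hK c hc e he).2.trans ?_)) hpi
    rw [div_le_iff₀ (by linarith)]
    nlinarith

/-- INT -/
theorem int_core {K : ℝ} (hK0 : 0 ≤ K)
    (hK : ∀ c ∈ Icc (-1 : ℝ) 1, ∀ e : ℝ, 0 ≤ e →
      (∀ t ∈ Icc (0 : ℝ) 1, ∫ w in Ioi (0 : ℝ), |uu R₁ D₁ R₂ D₂ c e t w| ≤ K) ∧
      ∫ w in Ioi (0 : ℝ), |vv R₁ D₁ R₂ D₂ c e w| ≤ K / (1 + e))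
    (α e₀ E : ℝ) (h0 : 0 < e₀) (h0E : e₀ ≤ E) :
    (∀ c ∈ Icc (-1 : ℝ) 1, ∀ e : ℝ, 0 ≤ e → IntervalIntegrable (pc R₁ D₁ R₂ D₂ c e) volume 0 1) ∧
    (∀ c ∈ Icc (-1 : ℝ) 1, ∀ t ∈ Icc (0 : ℝ) 1,
      IntervalIntegrable (fun e => e ^ (-1 - α) * pc R₁ D₁ R₂ D₂ c e t) volume e₀ E) ∧
    (∀ c ∈ Icc (-1 : ℝ) 1, IntervalIntegrable (fun e => e ^ (-1 - α) * pa R₁ D₁ R₂ D₂ c e) volume e₀ E) ∧
    (∀ c ∈ Icc (-1 : ℝ) 1, IntervalIntegrable (fun e => e ^ (-α) * qc R₁ D₁ R₂ D₂ c e) volume e₀ E) ∧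
    IntervalIntegrable (fun c => ∫ e in e₀..E, e ^ (-α) * qc R₁ D₁ R₂ D₂ c e) volume (-1) 1 ∧
    IntervalIntegrable (fun c => -(E ^ (-α) * pa R₁ D₁ R₂ D₂ c E) + e₀ ^ (-α) * pa R₁ D₁ R₂ D₂ c e₀
      + ∫ e in e₀..E, e ^ (-1 - α) * (-(1 + α) * pa R₁ D₁ R₂ D₂ c e + 2 * pc R₁ D₁ R₂ D₂ c e 1 - pc R₁ D₁ R₂ D₂ c e 0))
      volume (-1) 1 := by
  have hb := bounds_of hK0 hK
  have mp := measurable_pc R₁ D₁ R₂ D₂
  have ma := measurable_pa R₁ D₁ R₂ D₂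
  have mq := measurable_qc R₁ D₁ R₂ D₂
  have hpos : ∀ e ∈ Icc e₀ E, 0 ≤ e := fun e he => h0.le.trans he.1
  have hE0 : 0 ≤ E := h0.le.trans h0E
  obtain ⟨C1, hC10, hC1⟩ := rpow_bdd (-1 - α) (E := E) h0
  obtain ⟨C2, hC20, hC2⟩ := rpow_bdd (-α) (E := E) h0
  set B : ℝ := 2 / Real.pi * K with hB
  have hB0 : 0 ≤ B := by positivity
  have mul_bd : ∀ {x y X Y : ℝ}, |x| ≤ X → |y| ≤ Y → |x * y| ≤ X * Y := by
    intro x y X Y hx hy
    rw [abs_mul]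
    exact mul_le_mul hx hy (abs_nonneg _) ((abs_nonneg _).trans hx)
  have mpow : ∀ s : ℝ, Measurable fun e : ℝ => e ^ s := fun s => by fun_prop
  refine ⟨?_, ?_, ?_, ?_, ?_, ?_⟩
  · intro c hc e he
    exact ii_of_bdd (C := B) zero_le_one
      (mp.comp (f := fun t : ℝ => (c, e, t)) (by fun_prop)) (hb c hc e he).1
  · intro c hc t ht
    exact ii_of_bdd (C := C1 * B) h0E
      ((mpow _).mul (mp.comp (f := fun e : ℝ => (c, e, t)) (by fun_prop)))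
      fun e he => mul_bd (hC1 e he) ((hb c hc e (hpos e he)).1 t ht)
  · intro c hc
    exact ii_of_bdd (C := C1 * B) h0E
      ((mpow _).mul (ma.comp (f := fun e : ℝ => (c, e)) (by fun_prop)))
      fun e he => mul_bd (hC1 e he) (hb c hc e (hpos e he)).2.1
  · intro c hc
    exact ii_of_bdd (C := C2 * B) h0E
      ((mpow _).mul (mq.comp (f := fun e : ℝ => (c, e)) (by fun_prop)))
      fun e he => mul_bd (hC2 e he) (hb c hc e (hpos e he)).2.2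
  · refine ii_of_bdd (C := C2 * B * (E - e₀)) (by norm_num) ?_ ?_
    · refine measurable_ii (F := fun c e => e ^ (-α) * qc R₁ D₁ R₂ D₂ c e) h0E ?_
      exact ((mpow (-α)).comp measurable_snd).mul mq
    · intro c hc
      exact abs_ii_le h0E fun e he => mul_bd (hC2 e he) (hb c hc e (hpos e he)).2.2
  · have m1 : Measurable fun c : ℝ => pa R₁ D₁ R₂ D₂ c E :=
      ma.comp (f := fun c : ℝ => (c, E)) (by fun_prop)
    have m2 : Measurable fun c : ℝ => pa R₁ D₁ R₂ D₂ c e₀ :=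
      ma.comp (f := fun c : ℝ => (c, e₀)) (by fun_prop)
    have m3 : Measurable fun c : ℝ => ∫ e in e₀..E, e ^ (-1 - α) * (-(1 + α) * pa R₁ D₁ R₂ D₂ c e +
        2 * pc R₁ D₁ R₂ D₂ c e 1 - pc R₁ D₁ R₂ D₂ c e 0) := by
      refine measurable_ii (F := fun c e => e ^ (-1 - α) * (-(1 + α) * pa R₁ D₁ R₂ D₂ c e +
        2 * pc R₁ D₁ R₂ D₂ c e 1 - pc R₁ D₁ R₂ D₂ c e 0)) h0E ?_
      have g1 : Measurable fun z : ℝ × ℝ => pc R₁ D₁ R₂ D₂ z.1 z.2 1 :=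
        mp.comp (f := fun z : ℝ × ℝ => (z.1, z.2, (1 : ℝ))) (by fun_prop)
      have g0 : Measurable fun z : ℝ × ℝ => pc R₁ D₁ R₂ D₂ z.1 z.2 0 :=
        mp.comp (f := fun z : ℝ × ℝ => (z.1, z.2, (0 : ℝ))) (by fun_prop)
      exact ((mpow (-1 - α)).comp measurable_snd).mul
        (((ma.const_mul _).add (g1.const_mul _)).sub g0)
    have b3 : ∀ c ∈ Icc (-1 : ℝ) 1, ∀ e ∈ Icc e₀ E,
        |e ^ (-1 - α) * (-(1 + α) * pa R₁ D₁ R₂ D₂ c e +
          2 * pc R₁ D₁ R₂ D₂ c e 1 - pc R₁ D₁ R₂ D₂ c e 0)| ≤ C1 * (|1 + α| * B + 2 * B + B) := by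
      intro c hc e he
      obtain ⟨p1, p2, -⟩ := hb c hc e (hpos e he)
      have q1 := p1 1 ⟨zero_le_one, le_rfl⟩
      have q0 := p1 0 ⟨le_rfl, zero_le_one⟩
      refine mul_bd (hC1 e he) ?_
      have e1 : |-(1 + α) * pa R₁ D₁ R₂ D₂ c e| ≤ |1 + α| * B := by
        rw [abs_mul, abs_neg]
        exact mul_le_mul_of_nonneg_left p2 (abs_nonneg _)
      have e2 : |2 * pc R₁ D₁ R₂ D₂ c e 1| ≤ 2 * B := by
        rw [abs_mul, abs_two]
        linarith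
      calc _ ≤ |-(1 + α) * pa R₁ D₁ R₂ D₂ c e + 2 * pc R₁ D₁ R₂ D₂ c e 1| +
            |pc R₁ D₁ R₂ D₂ c e 0| := abs_sub _ _
        _ ≤ (|-(1 + α) * pa R₁ D₁ R₂ D₂ c e| + |2 * pc R₁ D₁ R₂ D₂ c e 1|) +
            |pc R₁ D₁ R₂ D₂ c e 0| := by gcongr; exact abs_add_le _ _
        _ ≤ _ := by linarith
    refine ii_of_bdd (C := C2 * B + C2 * B + C1 * (|1 + α| * B + 2 * B + B) * (E - e₀))
      (by norm_num) ?_ ?_
    · exact (((m1.const_mul _).neg).add (m2.const_mul _)).add m3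
    · intro c hc
      have e1 : |-(E ^ (-α) * pa R₁ D₁ R₂ D₂ c E)| ≤ C2 * B := by
        rw [abs_neg]
        exact mul_bd (hC2 E ⟨h0E, le_rfl⟩) (hb c hc E hE0).2.1
      have e2 : |e₀ ^ (-α) * pa R₁ D₁ R₂ D₂ c e₀| ≤ C2 * B :=
        mul_bd (hC2 e₀ ⟨le_rfl, h0E⟩) (hb c hc e₀ h0.le).2.1
      have e3 := abs_ii_le h0E (b3 c hc)
      refine (abs_add_le _ _).trans (add_le_add ((abs_add_le _ _).trans (add_le_add e1 e2)) e3)

end Pool.Agent.Lib_helper8.A1
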